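import Pool.Agent.H8.AV3C.SH3
import Pool.Agent.H8.AV3.Stmts7
import Pool.Agent.H14.AVS.Final2

/-!
# The average size of the 3-Selmer group: the families of equations
-/

set_option autoImplicit false

namespace Pool.AV3

open Polynomial Matrix Pool.AVR

variable {F : Type} [Field F]

open Classical in
/-- For the family `S n` of equations: the average size of the 3-Selmer group tends to 4; the average
of `3 ^ rank` is at most `4 + o(1)`, the average rank at most `7 / 6 + o(1)`, and the rank is at most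
one for a proportion at least `5 / 8 - o(1)`. -/
def Avg3 (S : ℕ → Set (F[X] × F[X] × F[X])) : Prop :=
  (∀ n : ℕ, (S n).Finite) ∧ (∃ N : ℕ, ∀ n : ℕ, N ≤ n → (S n).Nonempty) ∧
  Filter.Tendsto (fun n : ℕ => (∑ᶠ f ∈ S n, (Nat.card (Sel3 f) : ℝ)) / (S n).ncard)
    Filter.atTop (nhds 4) ∧
  ∀ ε : ℝ, 0 < ε → ∃ N : ℕ, ∀ n : ℕ, N ≤ n →
    ∑ᶠ f ∈ S n, (3 : ℝ) ^ rk f ≤ (4 + ε) * (S n).ncard ∧
    ∑ᶠ f ∈ S n, (rk f : ℝ) ≤ (7 / 6 + ε) * (S n).ncard ∧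
    (5 / 8 - ε) * (S n).ncard ≤ {f ∈ S n | rk f ≤ 1}.ncard

theorem six_le (r : ℕ) : 6 * (r : ℝ) ≤ 3 ^ r + 3 := by
  have h : ∀ r : ℕ, 6 * r ≤ 3 ^ r + 3 := by
    intro r
    induction r with
    | zero => norm_num
    | succ r ih =>
      rcases r with _ | r
      · norm_num
      · have h9 : 3 ≤ 3 ^ (r + 1) := by
          calc 3 = 3 ^ 1 := by norm_num
            _ ≤ 3 ^ (r + 1) := Nat.pow_le_pow_right (by norm_num) (by omega)
        rw [pow_succ]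
        omega
  exact_mod_cast h r

/-- From the average of the Selmer group to the ranks. -/
theorem avg3_of {S : ℕ → Set (F[X] × F[X] × F[X])} (rk : F[X] × F[X] × F[X] → ℕ)
    (hfin : ∀ n, (S n).Finite)
    (hle : ∀ n, ∀ f ∈ S n, (3 : ℝ) ^ rk f ≤ (Nat.card (Sel3 f) : ℝ))
    (h : ∀ ε : ℝ, 0 < ε → ∃ N : ℕ, ∀ n : ℕ, N ≤ n →
      ∑ᶠ f ∈ S n, (Nat.card (Sel3 f) : ℝ) ≤ (4 + ε) * (S n).ncard) :
    ∀ ε : ℝ, 0 < ε → ∃ N : ℕ, ∀ n : ℕ, N ≤ n →
      ∑ᶠ f ∈ S n, (3 : ℝ) ^ rk f ≤ (4 + ε) * (S n).ncard ∧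
      ∑ᶠ f ∈ S n, (rk f : ℝ) ≤ (7 / 6 + ε) * (S n).ncard ∧
      (5 / 8 - ε) * (S n).ncard ≤ {f ∈ S n | rk f ≤ 1}.ncard := by
  classical
  intro ε hε
  obtain ⟨N, hN⟩ := h ε hε
  refine ⟨N, fun n hn => ?_⟩
  have h1 := hN n hn
  have h2 : ∑ᶠ f ∈ S n, (3 : ℝ) ^ rk f ≤ ∑ᶠ f ∈ S n, (Nat.card (Sel3 f) : ℝ) :=
    finsum_mem_le (hfin n) fun f hf => hle n f hf
  have h3 : ∑ᶠ f ∈ S n, (3 : ℝ) ^ rk f ≤ (4 + ε) * (S n).ncard := h2.trans h1
  have hp : (0 : ℝ) ≤ (S n).ncard := Nat.cast_nonneg _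
  have hεS : 0 ≤ ε * (S n).ncard := mul_nonneg hε.le hp
  refine ⟨h3, ?_, ?_⟩
  · rw [finsum_mem_eq_finite_toFinset_sum _ (hfin n)] at h3 ⊢
    have h4 : ∑ f ∈ (hfin n).toFinset, (6 * (rk f : ℝ)) ≤
        ∑ f ∈ (hfin n).toFinset, ((3 : ℝ) ^ rk f + 3) :=
      Finset.sum_le_sum fun f _ => six_le (rk f)
    rw [← Finset.mul_sum, Finset.sum_add_distrib, Finset.sum_const, nsmul_eq_mul,
      ← Set.ncard_eq_toFinset_card _ (hfin n)] at h4
    linarith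
  · have h5 : ∀ f, (3 : ℝ) ^ rk f ≥ 9 - 8 * (if rk f ≤ 1 then (1 : ℝ) else 0) := by
      intro f
      by_cases hf : rk f ≤ 1
      · rw [if_pos hf]
        have : (1 : ℝ) ≤ 3 ^ rk f := one_le_pow₀ (by norm_num)
        linarith
      · rw [if_neg hf]
        have : (3 : ℝ) ^ 2 ≤ 3 ^ rk f := pow_le_pow_right₀ (by norm_num) (by omega)
        linarith
    rw [finsum_mem_eq_finite_toFinset_sum _ (hfin n)] at h3
    have h6 : ∑ f ∈ (hfin n).toFinset, (9 - 8 * (if rk f ≤ 1 then (1 : ℝ) else 0)) ≤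
        ∑ f ∈ (hfin n).toFinset, (3 : ℝ) ^ rk f := Finset.sum_le_sum fun f _ => h5 f
    rw [Finset.sum_sub_distrib, Finset.sum_const, nsmul_eq_mul, ← Finset.mul_sum,
      ← Finset.sum_filter, Finset.sum_const, nsmul_eq_mul, mul_one,
      ← Set.ncard_eq_toFinset_card _ (hfin n)] at h6
    have h7 : ({f ∈ S n | rk f ≤ 1} : Set (F[X] × F[X] × F[X])).ncard =
        ((hfin n).toFinset.filter fun f => rk f ≤ 1).card := by
      have hf1 : ({f ∈ S n | rk f ≤ 1} : Set (F[X] × F[X] × F[X])).Finite :=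
        (hfin n).subset fun f hf => hf.1
      rw [Set.ncard_eq_toFinset_card _ hf1]
      congr 1
      ext f
      simp
    rw [h7]
    linarith

variable (F) in
open Classical in
/-- The final statement. -/
def Main3 : Prop :=
  (∀ n : ℕ, ∀ f ∈ Ell F n, (E (algebraMap F[X] (RatFunc F) f.1) (algebraMap F[X] (RatFunc F) f.2.1)
      (algebraMap F[X] (RatFunc F) f.2.2)).Δ ≠ 0 ∧ AddGroup.FG (EK f)) ∧
  (∀ n : ℕ, ∀ f ∈ El F n, Finite (Sel3 f) ∧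
    Nat.card (Mod3 (EK f)) ≤ Nat.card (Sel3 f) ∧
    3 ^ rk f ≤ Nat.card (Mod3 (EK f))) ∧
  (∀ n : ℕ, 1 ≤ n → (Fam F n).ncard = Nat.card F ^ (12 * n + 3) ∧
    {f ∈ Fam F n | f ∉ El F n}.ncard ≤ 3 * Nat.card F ^ (10 * n + 3)) ∧
  Avg3 (El F) ∧ ((3 : F) ≠ 0 → Avg3 (AVS.Sht F) ∧ Avg3 (AVS.ShtM F))

/-- From sums to the limit. -/
theorem tendsto4_of {S : ℕ → Set (F[X] × F[X] × F[X])} (hfin : ∀ n, (S n).Finite)
    (hne : ∃ N : ℕ, ∀ n : ℕ, N ≤ n → (S n).Nonempty)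
    (h : ∀ ε : ℝ, 0 < ε → ∃ N : ℕ, ∀ n : ℕ, N ≤ n →
      (4 - ε) * (S n).ncard ≤ ∑ᶠ f ∈ S n, (Nat.card (Sel3 f) : ℝ) ∧
      ∑ᶠ f ∈ S n, (Nat.card (Sel3 f) : ℝ) ≤ (4 + ε) * (S n).ncard) :
    Filter.Tendsto (fun n : ℕ => (∑ᶠ f ∈ S n, (Nat.card (Sel3 f) : ℝ)) / (S n).ncard)
      Filter.atTop (nhds 4) := by
  obtain ⟨N₀, hN₀⟩ := hne
  rw [Metric.tendsto_atTop]
  intro ε hε
  obtain ⟨N₁, hN₁⟩ := h (ε / 2) (by linarith)
  refine ⟨max N₁ N₀, fun n hn => ?_⟩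
  obtain ⟨h6, h5⟩ := hN₁ n ((le_max_left _ _).trans hn)
  have hp : (0 : ℝ) < (S n).ncard := by
    exact_mod_cast (Set.ncard_pos (hfin n)).2 (hN₀ n ((le_max_right _ _).trans hn))
  rw [Real.dist_eq, abs_lt]
  have h7 : (∑ᶠ f ∈ S n, (Nat.card (Sel3 f) : ℝ)) / (S n).ncard ≤ 4 + ε / 2 := by
    rw [div_le_iff₀ hp]
    exact h5
  have h8 : 4 - ε / 2 ≤ (∑ᶠ f ∈ S n, (Nat.card (Sel3 f) : ℝ)) / (S n).ncard := by
    rw [le_div_iff₀ hp]
    exact h6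
  constructor <;> linarith

theorem delta_ne (h2 : (2 : F) ≠ 0) {n : ℕ} {f : F[X] × F[X] × F[X]} (hf : f ∈ Ell F n) :
    (E (algebraMap F[X] (RatFunc F) f.1) (algebraMap F[X] (RatFunc F) f.2.1)
      (algebraMap F[X] (RatFunc F) f.2.2)).Δ ≠ 0 := by
  have h2K : (2 : RatFunc F) ≠ 0 := by
    intro h
    apply h2
    have h3 : algebraMap F (RatFunc F) 2 = algebraMap F (RatFunc F) 0 := by
      rw [map_ofNat, map_zero]
      exact h
    exact (algebraMap F (RatFunc F)).injective h3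
  have hd : algebraMap F[X] (RatFunc F) (disc f.1 f.2.1 f.2.2) ≠ 0 := fun h0 =>
    hf.2 ((IsFractionRing.injective F[X] (RatFunc F)) (h0.trans (map_zero _).symm))
  have e : (E (algebraMap F[X] (RatFunc F) f.1) (algebraMap F[X] (RatFunc F) f.2.1)
      (algebraMap F[X] (RatFunc F) f.2.2)).Δ =
      2 ^ 4 * algebraMap F[X] (RatFunc F) (disc f.1 f.2.1 f.2.2) := by
    simp only [WeierstrassCurve.Δ, WeierstrassCurve.b₂, WeierstrassCurve.b₄, WeierstrassCurve.b₆,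
      WeierstrassCurve.b₈, E, disc, map_add, map_sub, map_mul, map_pow, map_ofNat]
    ring
  rw [e]
  exact mul_ne_zero (pow_ne_zero _ h2K) hd

theorem main3_of (hFN : FN3Stmt) (hSHC : AVS.SHCStmt) (hSHM : AVS.SHMStmt)
    (F : Type) [Field F] [Finite F] (h2 : (2 : F) ≠ 0) : Main3 F := by
  classical
  obtain ⟨hA, hB, hC, hD, hE⟩ := hFN F h2
  have hq : (2 : ℝ) ≤ Nat.card F := by
    have hF : 1 < Nat.card F := Finite.one_lt_card
    exact_mod_cast hF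
  have hq0 : (0 : ℝ) < Nat.card F := by linarith
  have hfamfin : ∀ n, (Fam F n).Finite := by
    intro n
    have h1 : (Fam F (n + 1)).Finite := by
      apply Set.finite_of_ncard_pos
      rw [(hC (n + 1) (by omega)).1]
      have : 0 < Nat.card F := Finite.card_pos
      positivity
    refine h1.subset fun f hf => ⟨hf.1.trans ?_, hf.2.1.trans ?_, hf.2.2.trans ?_⟩ <;> omega
  have hfin : ∀ n, (El F n).Finite := fun n => (hfamfin n).subset fun f hf => hf.1.1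
  have hne : ∃ N : ℕ, ∀ n : ℕ, N ≤ n → (El F n).Nonempty := by
    rw [Metric.tendsto_atTop] at hD
    obtain ⟨N, hN⟩ := hD 1 one_pos
    refine ⟨N, fun n hn => ?_⟩
    by_contra hcon
    rw [Set.not_nonempty_iff_eq_empty] at hcon
    have h3 := hN n hn
    rw [hcon, Set.ncard_empty, Nat.cast_zero, div_zero, Real.dist_eq] at h3
    norm_num at h3
  have hbd : ∀ ε : ℝ, 0 < ε → ∃ N : ℕ, ∀ n : ℕ, N ≤ n →
      (4 - ε) * (El F n).ncard ≤ ∑ᶠ f ∈ El F n, (Nat.card (Sel3 f) : ℝ) ∧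
      ∑ᶠ f ∈ El F n, (Nat.card (Sel3 f) : ℝ) ≤ (4 + ε) * (El F n).ncard := by
    intro ε hε
    rw [Metric.tendsto_atTop] at hD
    obtain ⟨N, hN⟩ := hD ε hε
    obtain ⟨N₀, hN₀⟩ := hne
    refine ⟨max N N₀, fun n hn => ?_⟩
    have h3 := hN n ((le_max_left _ _).trans hn)
    have hp : (0 : ℝ) < (El F n).ncard := by
      exact_mod_cast (Set.ncard_pos (hfin n)).2 (hN₀ n ((le_max_right _ _).trans hn))
    rw [Real.dist_eq, abs_lt] at h3
    constructor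
    · have h4 : 4 - ε ≤ (∑ᶠ f ∈ El F n, (Nat.card (Sel3 f) : ℝ)) / (El F n).ncard := by
        linarith
      rwa [le_div_iff₀ hp] at h4
    · have h4 : (∑ᶠ f ∈ El F n, (Nat.card (Sel3 f) : ℝ)) / (El F n).ncard ≤ 4 + ε := by
        linarith
      rwa [div_le_iff₀ hp] at h4
  have hle : ∀ n, ∀ f ∈ El F n, (3 : ℝ) ^ rk f ≤ (Nat.card (Sel3 f) : ℝ) := by
    intro n f hf
    have h3 := hB n f hf
    exact_mod_cast h3.2.2.trans h3.2.1
  refine ⟨fun n f hf => ⟨delta_ne h2 hf, hA n f hf⟩, hB, hC, ⟨hfin, hne, hD, avg3_of rk hfin hle fun ε hε => ?_⟩, fun h3 => ?_⟩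
  · obtain ⟨N, hN⟩ := hbd ε hε
    exact ⟨N, fun n hn => (hN n hn).2⟩
  have hEl : ∀ n, El F n = Ell F n := fun n =>
    Set.ext fun f => ⟨fun hf => hf.1, fun hf => ⟨hf, Or.inl h3⟩⟩
  have hshtE : ∀ n, AVS.Sht F n ⊆ El F n := fun n f hf => by
    rw [hEl]
    exact hf.1
  have hshtfin : ∀ n, (AVS.Sht F n).Finite := fun n => (hfin n).subset (hshtE n)
  have hshmS : ∀ n, AVS.ShtM F n ⊆ AVS.Sht F n := fun n f hf => hf.1
  have hshmfin : ∀ n, (AVS.ShtM F n).Finite := fun n => (hshtfin n).subset (hshmS n)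
  have hcard : ∀ n, ((El F n).ncard : ℝ) =
      (Nat.card F : ℝ) ^ (2 * n + 1) * (AVS.Sht F n).ncard := by
    intro n
    have := (hSHC F h2 h3 (fun _ => 1) (fun _ _ _ _ => rfl) n).2
    rw [← hEl] at this
    rwa [finsum_mem_const (hfin n), finsum_mem_const (hshtfin n), mul_one, mul_one] at this
  have hSelinv : ∀ (f f' : F[X] × F[X] × F[X]) (l r : F[X]), l ≠ 0 → AVS.Subs l r f f' →
      (Nat.card (Sel3 f) : ℝ) = Nat.card (Sel3 f') := fun f f' l r hl hs => by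
    rw [SH3.card_sel3 hl hs]
  have hsum : ∀ n, ∑ᶠ f ∈ El F n, (Nat.card (Sel3 f) : ℝ) =
      (Nat.card F : ℝ) ^ (2 * n + 1) * ∑ᶠ f ∈ AVS.Sht F n, (Nat.card (Sel3 f) : ℝ) := fun n => by
    rw [hEl]
    exact (hSHC F h2 h3 (fun f => (Nat.card (Sel3 f) : ℝ))
      (fun f f' r hs => hSelinv f f' 1 r one_ne_zero hs) n).2
  have hShtavg : ∀ ε : ℝ, 0 < ε → ∃ N : ℕ, ∀ n : ℕ, N ≤ n →
      (4 - ε) * (AVS.Sht F n).ncard ≤ ∑ᶠ f ∈ AVS.Sht F n, (Nat.card (Sel3 f) : ℝ) ∧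
      ∑ᶠ f ∈ AVS.Sht F n, (Nat.card (Sel3 f) : ℝ) ≤ (4 + ε) * (AVS.Sht F n).ncard := by
    intro ε hε
    obtain ⟨N₁, hN₁⟩ := hbd ε hε
    refine ⟨N₁, fun n hn => ?_⟩
    obtain ⟨h5, h6⟩ := hN₁ n hn
    rw [hsum, hcard] at h5 h6
    have hqn : (0 : ℝ) < (Nat.card F : ℝ) ^ (2 * n + 1) := by positivity
    constructor
    · refine le_of_mul_le_mul_left ?_ hqn
      linarith
    · refine le_of_mul_le_mul_left ?_ hqn
      linarith
  have hShtne : ∀ n, (0 : ℝ) < (AVS.Sht F n).ncard := by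
    intro n
    have h5 : (0 : ℝ) < (Nat.card F : ℝ) ^ (10 * n + 2) / 4 := by positivity
    exact h5.trans_le ((hSHM F h2 h3).2 n).1
  -- minimal equations
  have hlow : ∀ n, (Nat.card F : ℝ) ^ (10 * (n + 2) + 2) / 8 ≤ (AVS.ShtM F (n + 2)).ncard := by
    intro n
    have h5 := (hSHM F h2 h3).1 (fun _ => 1) (fun _ _ _ _ _ => rfl) n
    rw [finsum_mem_const (hshmfin _), finsum_mem_const (hshtfin _),
      finsum_mem_const (hshtfin _), finsum_mem_const (hshtfin _), mul_one, mul_one, mul_one,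
      mul_one] at h5
    have h6 := ((hSHM F h2 h3).2 (n + 2)).1
    have h7 := ((hSHM F h2 h3).2 (n + 1)).2
    have h8 : (0 : ℝ) ≤ (AVS.Sht F n).ncard := Nat.cast_nonneg _
    rw [h5]
    set q : ℝ := (Nat.card F : ℝ) with hqdef
    have h9 : q ^ (10 * (n + 2) + 2) = q ^ (10 * (n + 1) + 2) * q ^ 10 := by
      rw [← pow_add]
      congr 1
    have h10 : (q + 1) * 8 ≤ q ^ 10 := by
      have h11 : (2 : ℝ) ^ 9 ≤ q ^ 9 := pow_le_pow_left₀ (by norm_num) hq 9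
      have h12 : q ^ 10 = q ^ 9 * q := by ring
      rw [h12]
      nlinarith
    have h13 : (0 : ℝ) < q ^ (10 * (n + 1) + 2) := by positivity
    have h14 : 0 ≤ q * (AVS.Sht F n).ncard := by positivity
    have h15 : (q + 1) * ((AVS.Sht F (n + 1)).ncard : ℝ) ≤ (q + 1) * q ^ (10 * (n + 1) + 2) :=
      mul_le_mul_of_nonneg_left h7 (by linarith)
    have h16 : q ^ (10 * (n + 1) + 2) * ((q + 1) * 8) ≤ q ^ (10 * (n + 1) + 2) * q ^ 10 :=
      mul_le_mul_of_nonneg_left h10 h13.le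
    rw [h9] at h6 ⊢
    linarith
  have hupp : ∀ n, ((AVS.Sht F (n + 2)).ncard : ℝ) + (Nat.card F + 1) *
      (AVS.Sht F (n + 1)).ncard + Nat.card F * (AVS.Sht F n).ncard ≤
        24 * (AVS.ShtM F (n + 2)).ncard := by
    intro n
    have h5 := hlow n
    have h6 := ((hSHM F h2 h3).2 (n + 2)).2
    have h7 := ((hSHM F h2 h3).2 (n + 1)).2
    have h8 := ((hSHM F h2 h3).2 n).2
    set q : ℝ := (Nat.card F : ℝ) with hqdef
    have h9 : q ^ (10 * (n + 2) + 2) = q ^ (10 * n + 2) * q ^ 20 := by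
      rw [← pow_add]
      congr 1
    have h9' : q ^ (10 * (n + 1) + 2) = q ^ (10 * n + 2) * q ^ 10 := by
      rw [← pow_add]
      congr 1
    have h13 : (0 : ℝ) < q ^ (10 * n + 2) := by positivity
    have h10 : (q + 1) * q ^ 10 + q ≤ 2 * q ^ 20 := by
      have h11 : (2 : ℝ) ^ 9 ≤ q ^ 9 := pow_le_pow_left₀ (by norm_num) hq 9
      have h12 : q ^ 20 = q ^ 10 * (q ^ 9 * q) := by ring
      have h14 : (1 : ℝ) ≤ q ^ 10 := one_le_pow₀ (by linarith)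
      have h15 : 512 * q ≤ q ^ 9 * q := by nlinarith
      rw [h12]
      nlinarith
    rw [h9] at h5 h6
    rw [h9'] at h7
    have h15 : (q + 1) * ((AVS.Sht F (n + 1)).ncard : ℝ) ≤
        (q + 1) * (q ^ (10 * n + 2) * q ^ 10) := mul_le_mul_of_nonneg_left h7 (by linarith)
    have h16 : q * ((AVS.Sht F n).ncard : ℝ) ≤ q * q ^ (10 * n + 2) :=
      mul_le_mul_of_nonneg_left h8 (by linarith)
    have h17 : q ^ (10 * n + 2) * ((q + 1) * q ^ 10 + q) ≤ q ^ (10 * n + 2) * (2 * q ^ 20) :=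
      mul_le_mul_of_nonneg_left h10 h13.le
    linarith
  have hSne : ∃ N : ℕ, ∀ n : ℕ, N ≤ n → (AVS.Sht F n).Nonempty := ⟨0, fun n _ =>
    Set.nonempty_of_ncard_ne_zero (by
      have := hShtne n
      intro h
      rw [h] at this
      simp at this)⟩
  have hMne : ∃ N : ℕ, ∀ n : ℕ, N ≤ n → (AVS.ShtM F n).Nonempty := ⟨2, fun n hn => by
    obtain ⟨k, rfl⟩ := Nat.exists_eq_add_of_le hn
    rw [add_comm 2 k]
    have h5 := hlow k
    have h6 : (0 : ℝ) < (Nat.card F : ℝ) ^ (10 * (k + 2) + 2) / 8 := by positivity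
    exact Set.nonempty_of_ncard_ne_zero (by
      intro h
      rw [h] at h5
      simp at h5
      linarith)⟩
  have hMavg : ∀ ε : ℝ, 0 < ε → ∃ N : ℕ, ∀ n : ℕ, N ≤ n →
      (4 - ε) * (AVS.ShtM F n).ncard ≤ ∑ᶠ f ∈ AVS.ShtM F n, (Nat.card (Sel3 f) : ℝ) ∧
      ∑ᶠ f ∈ AVS.ShtM F n, (Nat.card (Sel3 f) : ℝ) ≤ (4 + ε) * (AVS.ShtM F n).ncard := by
    intro ε hε
    obtain ⟨N, hN⟩ := hShtavg (ε / 24) (by linarith)
    refine ⟨N + 2, fun n hn => ?_⟩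
    obtain ⟨k, rfl⟩ := Nat.exists_eq_add_of_le (show 2 ≤ n by omega)
    rw [add_comm 2 k] at hn ⊢
    have e1 := (hSHM F h2 h3).1 (fun _ => 1) (fun _ _ _ _ _ => rfl) k
    rw [finsum_mem_const (hshmfin _), finsum_mem_const (hshtfin _),
      finsum_mem_const (hshtfin _), finsum_mem_const (hshtfin _), mul_one, mul_one, mul_one,
      mul_one] at e1
    have e2 := (hSHM F h2 h3).1 (fun f => (Nat.card (Sel3 f) : ℝ))
      (fun f f' l hl hs => hSelinv f f' l 0 hl.ne_zero hs) k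
    have e3 := hupp k
    obtain ⟨a1, a2⟩ := hN (k + 2) (by omega)
    obtain ⟨b1, b2⟩ := hN (k + 1) (by omega)
    obtain ⟨c1, c2⟩ := hN k (by omega)
    have hq1 : (0 : ℝ) ≤ (Nat.card F : ℝ) + 1 := by linarith
    have b1' := mul_le_mul_of_nonneg_left b1 hq1
    have b2' := mul_le_mul_of_nonneg_left b2 hq1
    have c1' := mul_le_mul_of_nonneg_left c1 hq0.le
    have c2' := mul_le_mul_of_nonneg_left c2 hq0.le
    have e4 := mul_le_mul_of_nonneg_left e3 (show 0 ≤ ε / 24 by linarith)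
    rw [e2]
    constructor
    · linarith
    · linarith
  refine ⟨⟨hshtfin, hSne, tendsto4_of hshtfin hSne hShtavg,
    avg3_of rk hshtfin (fun n f hf => hle n f (hshtE n hf)) fun ε hε => ?_⟩,
    ⟨hshmfin, hMne, tendsto4_of hshmfin hMne hMavg,
    avg3_of rk hshmfin (fun n f hf => hle n f (hshtE n (hshmS n hf))) fun ε hε => ?_⟩⟩
  · obtain ⟨N, hN⟩ := hShtavg ε hε
    exact ⟨N, fun n hn => (hN n hn).2⟩
  · obtain ⟨N, hN⟩ := hMavg ε hε
    exact ⟨N, fun n hn => (hN n hn).2⟩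

end Pool.AV3
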