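import Pool.Agent.H20.AVS.SHP
import Pool.Agent.H8.AV3.Base2

/-!
# The 3-Selmer group does not depend on the equation
-/

set_option autoImplicit false

namespace Pool.AV3.SH3

open Polynomial Matrix Pool.AVR

section Field

variable {K : Type} [Field K]

theorem Eqv_smul_form {g : Matrix (Fin 3) (Fin 3) K} {c c' : Fin 10 → K} (h : Eqv g c c')
    (t : K) : Eqv g (t • c) (t • c') := by
  refine ⟨h.1, ?_⟩
  rw [tsub_smul_form, h.2, smul_comm]

theorem Eqv_FP_l (a b x y l : K) (hl : l ≠ 0) :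
    Eqv !![l, 0, 0; 0, 1, 0; 0, 0, l ^ 2] (l • FP a b x y)
      (FP (l ^ 2 * a) (l ^ 4 * b) (l ^ 2 * x) (l ^ 3 * y)) := by
  have hd : (!![l, 0, 0; 0, 1, 0; 0, 0, l ^ 2] : Matrix (Fin 3) (Fin 3) K).det = l ^ 3 := by
    rw [Matrix.det_fin_three]
    simp
    ring
  refine ⟨by rw [hd]; exact (isUnit_iff_ne_zero.2 (pow_ne_zero _ hl)), ?_⟩
  rw [hd]
  funext i
  fin_cases i <;>
  simp only [FP, tsub, tev, tder, Matrix.cons_val, Matrix.of_apply, Matrix.cons_val',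
    Fin.zero_eta, Fin.mk_one, Fin.reduceFinMk, Pi.smul_apply, smul_eq_mul] <;> ring

theorem Eqv_FO_l (a b c l : K) (hl : l ≠ 0) :
    Eqv !![l, 0, 0; 0, 1, 0; 0, 0, l ^ 3] (l • FO a b c)
      (FO (l ^ 2 * a) (l ^ 4 * b) (l ^ 6 * c)) := by
  have hd : (!![l, 0, 0; 0, 1, 0; 0, 0, l ^ 3] : Matrix (Fin 3) (Fin 3) K).det = l ^ 4 := by
    rw [Matrix.det_fin_three]
    simp
    ring
  refine ⟨by rw [hd]; exact (isUnit_iff_ne_zero.2 (pow_ne_zero _ hl)), ?_⟩
  rw [hd]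
  funext i
  fin_cases i <;>
  simp only [FO, tsub, tev, tder, Matrix.cons_val, Matrix.of_apply, Matrix.cons_val',
    Fin.zero_eta, Fin.mk_one, Fin.reduceFinMk, Pi.smul_apply, smul_eq_mul] <;> ring

/-- The substitution transforms the classes of the first curve into those of the second. -/
theorem cls_sb {l r : K} (hl : l ≠ 0) {f f' : K × K × K}
    (h : AVS.SHP.Sb l r f.1 f.2.1 f.2.2 f'.1 f'.2.1 f'.2.2) {c : Fin 10 → K} (hc : Cls f c) :
    Cls f' (l • c) := by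
  obtain ⟨P, g, hg⟩ := hc
  have h0 := h
  obtain ⟨h1, h2, h3⟩ := h
  obtain ⟨a, b, c₀⟩ := f
  obtain ⟨a', b', c₀'⟩ := f'
  simp only at h1 h2 h3 h0
  rcases P with _ | ⟨x, y, hxy⟩
  · have e1 := Eqv_FO_l a b c₀ l hl
    have e2 := Eqv_FO_sh (l ^ 2 * a) (l ^ 4 * b) (l ^ 6 * c₀) (-r)
    have e3 : FO (sh (-r) (l ^ 2 * a, l ^ 4 * b, l ^ 6 * c₀)).1
        (sh (-r) (l ^ 2 * a, l ^ 4 * b, l ^ 6 * c₀)).2.1
        (sh (-r) (l ^ 2 * a, l ^ 4 * b, l ^ 6 * c₀)).2.2 = FO a' b' c₀' := by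
      have k1 : (sh (-r) (l ^ 2 * a, l ^ 4 * b, l ^ 6 * c₀)).1 = a' := by
        simp only [sh]
        rw [h1]
        ring
      have k2 : (sh (-r) (l ^ 2 * a, l ^ 4 * b, l ^ 6 * c₀)).2.1 = b' := by
        simp only [sh]
        rw [h2]
        ring
      have k3 : (sh (-r) (l ^ 2 * a, l ^ 4 * b, l ^ 6 * c₀)).2.2 = c₀' := by
        simp only [sh]
        rw [h3]
        ring
      rw [k1, k2, k3]
    rw [e3] at e2
    exact ⟨.zero, _, (e1.trans e2).symm.trans (Eqv_smul_form hg l)⟩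
  · have e1 := Eqv_FP_l a b x y l hl
    have e2 := Eqv_FP_sh (l ^ 2 * a) (l ^ 4 * b) (l ^ 2 * x) (l ^ 3 * y) (-r)
    have k1 : l ^ 2 * a + 3 * -r = a' := by
      rw [h1]
      ring
    have k2 : l ^ 4 * b + 2 * (l ^ 2 * a) * -r + 3 * (-r) ^ 2 = b' := by
      rw [h2]
      ring
    have k3 : l ^ 2 * x - -r = l ^ 2 * x + r := by ring
    rw [k1, k2, k3] at e2
    exact ⟨.some (l ^ 2 * x + r) (l ^ 3 * y) ((AVS.SHP.nons_iff hl h0 x y).mpr hxy), _,
      (e1.trans e2).symm.trans (Eqv_smul_form hg l)⟩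

/-- The inverse substitution. -/
theorem sb_inv {l r a b c a' b' c' : K} (hl : l ≠ 0) (h : AVS.SHP.Sb l r a b c a' b' c') :
    AVS.SHP.Sb l⁻¹ (-(r * l⁻¹ ^ 2)) a' b' c' a b c := by
  obtain ⟨h1, h2, h3⟩ := h
  have e : l⁻¹ * l = 1 := inv_mul_cancel₀ hl
  have e2 : l⁻¹ ^ 2 * l ^ 2 = 1 := by rw [← mul_pow, e, one_pow]
  have e4 : l⁻¹ ^ 4 * l ^ 4 = 1 := by rw [← mul_pow, e, one_pow]
  have e6 : l⁻¹ ^ 6 * l ^ 6 = 1 := by rw [← mul_pow, e, one_pow]
  generalize l⁻¹ = m at *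
  subst h1 h2 h3
  refine ⟨?_, ?_, ?_⟩
  · linear_combination (-a) * e2
  · linear_combination (-b) * e4
  · linear_combination (-c) * e6

theorem cls_iff {l r : K} (hl : l ≠ 0) {f f' : K × K × K}
    (h : AVS.SHP.Sb l r f.1 f.2.1 f.2.2 f'.1 f'.2.1 f'.2.2) {c : Fin 10 → K} :
    Cls f' (l • c) ↔ Cls f c := by
  refine ⟨fun hc => ?_, cls_sb hl h⟩
  have := cls_sb (inv_ne_zero hl) (sb_inv hl h) hc
  rwa [smul_smul, inv_mul_cancel₀ hl, one_smul] at this

theorem eqv_iff {l : K} (hl : l ≠ 0) {c c' : Fin 10 → K} :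
    (∃ g, Eqv g (l • c) (l • c')) ↔ ∃ g, Eqv g c c' := by
  refine ⟨fun ⟨g, h⟩ => ⟨g, ?_⟩, fun ⟨g, h⟩ => ⟨g, Eqv_smul_form h l⟩⟩
  have := Eqv_smul_form h l⁻¹
  rwa [smul_smul, inv_mul_cancel₀ hl, one_smul, smul_smul, inv_mul_cancel₀ hl, one_smul] at this

end Field

variable {F : Type} [Field F]

/-- The substitution over an extension of `F(t)`. -/
theorem sb_k3 {L : Type} [Field L] (ι : RatFunc F →+* L) {f f' : F[X] × F[X] × F[X]} {l r : F[X]}
    (h : AVS.Subs l r f f') :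
    AVS.SHP.Sb (ι (algebraMap F[X] (RatFunc F) l)) (ι (algebraMap F[X] (RatFunc F) r))
      (k3 ι f).1 (k3 ι f).2.1 (k3 ι f).2.2 (k3 ι f').1 (k3 ι f').2.1 (k3 ι f').2.2 := by
  obtain ⟨h1, h2, h3⟩ := h
  refine ⟨?_, ?_, ?_⟩
  · simp only [k3, AVS.kf]
    rw [h1]
    simp only [map_sub, map_mul, map_pow, map_ofNat]
  · simp only [k3, AVS.kf]
    rw [h2]
    simp only [map_sub, map_add, map_mul, map_pow, map_ofNat]
  · simp only [k3, AVS.kf]
    rw [h3]
    simp only [map_sub, map_add, map_mul, map_pow]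

theorem selset_iff {f f' : F[X] × F[X] × F[X]} {l r : F[X]} (hl : l ≠ 0)
    (h : AVS.Subs l r f f') (c : Fin 10 → RatFunc F) :
    (algebraMap F[X] (RatFunc F) l • c) ∈ SelSet f' ↔ c ∈ SelSet f := by
  have hl' : algebraMap F[X] (RatFunc F) l ≠ 0 := fun h0 =>
    hl ((IsFractionRing.injective F[X] (RatFunc F)) (h0.trans (map_zero _).symm))
  have key : ∀ (L : Type) [Field L] (ι : RatFunc F →+* L),
      Cls (k3 ι f') (fun i => ι ((algebraMap F[X] (RatFunc F) l • c) i)) ↔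
        Cls (k3 ι f) (fun i => ι (c i)) := by
    intro L _ ι
    have e : (fun i => ι ((algebraMap F[X] (RatFunc F) l • c) i)) =
        ι (algebraMap F[X] (RatFunc F) l) • fun i => ι (c i) := by
      funext i
      simp only [Pi.smul_apply, smul_eq_mul, map_mul]
    rw [e]
    exact cls_iff ((map_ne_zero ι).2 hl') (sb_k3 ι h)
  constructor
  · rintro ⟨h1, h2⟩
    exact ⟨fun v => (key _ _).1 (h1 v), (key _ _).1 h2⟩
  · rintro ⟨h1, h2⟩
    exact ⟨fun v => (key _ _).2 (h1 v), (key _ _).2 h2⟩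

/-- The cardinality of the 3-Selmer group does not depend on the equation. -/
theorem card_sel3 {f f' : F[X] × F[X] × F[X]} {l r : F[X]} (hl : l ≠ 0)
    (h : AVS.Subs l r f f') : Nat.card (Sel3 f) = Nat.card (Sel3 f') := by
  have hl' : algebraMap F[X] (RatFunc F) l ≠ 0 := fun h0 =>
    hl ((IsFractionRing.injective F[X] (RatFunc F)) (h0.trans (map_zero _).symm))
  let e : SelSet f ≃ SelSet f' :=
    { toFun := fun c => ⟨algebraMap F[X] (RatFunc F) l • c.1, (selset_iff hl h c.1).2 c.2⟩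
      invFun := fun c => ⟨(algebraMap F[X] (RatFunc F) l)⁻¹ • c.1, (selset_iff hl h _).1 (by
        rw [smul_smul, mul_inv_cancel₀ hl', one_smul]
        exact c.2)⟩
      left_inv := fun c => Subtype.ext (by
        show (algebraMap F[X] (RatFunc F) l)⁻¹ • (algebraMap F[X] (RatFunc F) l • c.1) = c.1
        rw [smul_smul, inv_mul_cancel₀ hl', one_smul])
      right_inv := fun c => Subtype.ext (by
        show algebraMap F[X] (RatFunc F) l • ((algebraMap F[X] (RatFunc F) l)⁻¹ • c.1) = c.1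
        rw [smul_smul, mul_inv_cancel₀ hl', one_smul]) }
  exact Nat.card_congr (Quotient.congr e fun c c' => (eqv_iff hl').symm)

end Pool.AV3.SH3
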